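import Pool.Agent.N993.WX.Stm

/-!
# Project WX (helper993), part REP: words whose reductions have repetitions are rare
-/

set_option autoImplicit false

namespace Pool.Agent.N499.WX

open Pool.Agent.N993.WX
open Pool.Agent.N993.WT (RW)
open Pool.Agent.N993.WU (NoRep)

instance finite_RW (n k : ℕ) : Finite (RW n k) := by
  unfold RW
  infer_instance

theorem ofFn_frw {n : ℕ} (u : List (Fin n × Bool)) :
    List.ofFn (frw u).1 = FreeGroup.reduce u := by
  show List.ofFn (fun i : Fin (FreeGroup.reduce u).length => (FreeGroup.reduce u)[i]) = _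
  apply List.ext_getElem
  · simp
  · intro i h1 h2
    simp

theorem noRep_congr {n : ℕ} {I : Type} {k k' : I → ℕ} (g : ∀ t, RW n (k t))
    (g' : ∀ t, RW n (k' t)) (h : ∀ t, List.ofFn (g t).1 = List.ofFn (g' t).1) (μ : ℕ) :
    NoRep g μ ↔ NoRep g' μ := by
  have hk : k = k' := by
    funext t
    have := congrArg List.length (h t)
    simpa using this
  subst hk
  have hg : g = g' := by
    funext t
    exact Subtype.ext (List.ofFn_injective (h t))
  rw [hg]

section

variable {n : ℕ} {I : Type} (Y : Finset (Fin n)) (ℓ : I → ℕ)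

/-- the lengths of the reductions -/
def K (u : ∀ t, Fin (ℓ t) → Fin n × Bool) (t : I) : ℕ := (red Y (List.ofFn (u t))).length

/-- the reductions are the words `g t` -/
def Fib (k : I → ℕ) (g : ∀ t, RW n (k t)) (u : ∀ t, Fin (ℓ t) → Fin n × Bool) : Prop :=
  ∀ t, red Y (List.ofFn (u t)) = List.ofFn (g t).1

theorem K_le (u : ∀ t, Fin (ℓ t) → Fin n × Bool) (t : I) : K Y ℓ u t ≤ ℓ t := by
  unfold K red
  have h1 := (FreeGroup.Red.sublist (FreeGroup.reduce.red
    (L := (List.ofFn (u t)).filter fun y => y.1 ∈ Y))).length_le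
  have h2 := List.length_filter_le (fun y : Fin n × Bool => decide (y.1 ∈ Y)) (List.ofFn (u t))
  rw [List.length_ofFn] at h2
  exact h1.trans h2

theorem fib_card [Fintype I] (h1 : S_UNIF) (k : I → ℕ) (g g' : ∀ t, RW n (k t))
    (hg : ∀ t i, ((g t).1 i).1 ∈ Y) (hg' : ∀ t i, ((g' t).1 i).1 ∈ Y) :
    Nat.card {u // Fib Y ℓ k g u} = Nat.card {u // Fib Y ℓ k g' u} := by
  have key : ∀ g : ∀ t, RW n (k t), Nat.card {u // Fib Y ℓ k g u} =
      ∏ t, Nat.card {x : Fin (ℓ t) → Fin n × Bool // red Y (List.ofFn x) = List.ofFn (g t).1} := by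
    intro g
    rw [← Nat.card_pi]
    exact Nat.card_congr (Equiv.subtypePiEquivPi
      (p := fun t (x : Fin (ℓ t) → Fin n × Bool) => red Y (List.ofFn x) = List.ofFn (g t).1))
  rw [key, key]
  exact Finset.prod_congr rfl fun t _ => h1 n (ℓ t) (k t) Y (g t) (g' t) (hg t) (hg' t)

theorem count [Fintype I] [DecidableEq I] (k : I → ℕ) (P : (∀ t, RW n (k t)) → Prop)
    (Q : (∀ t, Fin (ℓ t) → Fin n × Bool) → Prop)
    (hPQ : ∀ u g, Fib Y ℓ k g u → (Q u ↔ P g)) (N : ℕ)
    (hN : ∀ g : ∀ t, RW n (k t), (∀ t i, ((g t).1 i).1 ∈ Y) →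
      Nat.card {u // Fib Y ℓ k g u} = N) :
    Nat.card {u // K Y ℓ u = k ∧ Q u} =
      Nat.card {g : ∀ t, RW n (k t) // (∀ t i, ((g t).1 i).1 ∈ Y) ∧ P g} * N := by
  classical
  have : Fintype (∀ t, RW n (k t)) := Fintype.ofFinite _
  rw [Nat.card_eq_fintype_card, Nat.card_eq_fintype_card, Fintype.card_subtype,
    Fintype.card_subtype]
  have e : (Finset.univ.filter fun u => K Y ℓ u = k ∧ Q u) =
      (Finset.univ.filter fun g : ∀ t, RW n (k t) => (∀ t i, ((g t).1 i).1 ∈ Y) ∧ P g).biUnion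
        (fun g => Finset.univ.filter fun u => Fib Y ℓ k g u) := by
    ext u
    simp only [Finset.mem_filter, Finset.mem_univ, true_and, Finset.mem_biUnion]
    constructor
    · rintro ⟨hk, hq⟩
      subst hk
      let g : ∀ t, RW n (K Y ℓ u t) := fun t => frw ((List.ofFn (u t)).filter fun y => y.1 ∈ Y)
      have hf : Fib Y ℓ _ g u := fun t => (ofFn_frw _).symm
      refine ⟨g, ⟨?_, (hPQ u g hf).1 hq⟩, hf⟩
      intro t i
      have h1 : (g t).1 i ∈ List.ofFn (g t).1 := (List.mem_ofFn' _ _).2 ⟨i, rfl⟩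
      rw [← hf t] at h1
      have h2 := (FreeGroup.Red.sublist (FreeGroup.reduce.red
        (L := (List.ofFn (u t)).filter fun y => y.1 ∈ Y))).subset h1
      have h3 := (List.mem_filter.1 h2).2
      simpa using h3
    · rintro ⟨g, ⟨_, hp⟩, hf⟩
      refine ⟨?_, (hPQ u g hf).2 hp⟩
      funext t
      have := congrArg List.length (hf t)
      rw [List.length_ofFn] at this
      exact this
  rw [e, Finset.card_biUnion, Finset.sum_const_nat]
  · intro g hg
    rw [← Fintype.card_subtype, ← Nat.card_eq_fintype_card]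
    exact hN g (Finset.mem_filter.1 hg).2.1
  · intro g _ g' _ hne
    show Disjoint (Finset.univ.filter fun u => Fib Y ℓ k g u)
      (Finset.univ.filter fun u => Fib Y ℓ k g' u)
    rw [Finset.disjoint_left]
    intro u hu hu'
    apply hne
    funext t
    have h1 := (Finset.mem_filter.1 hu).2 t
    have h2 := (Finset.mem_filter.1 hu').2 t
    exact Subtype.ext (List.ofFn_injective (h1.symm.trans h2))

end

/-- the part WX/REP -/
theorem t_rep (h1 : S_UNIF) (h2 : S_CNTY) : S_REP := by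
  intro n m c hc Y hY ℓ μ hμ
  classical
  set Bad : (∀ t, Fin (ℓ t) → Fin n × Bool) → Prop := fun u =>
    ¬ NoRep (fun t => frw ((List.ofFn (u t)).filter fun y => y.1 ∈ Y)) μ with hBad
  have per : ∀ k : ((j : Fin m) × Fin (c j)) → ℕ,
      (Nat.card {u // K Y ℓ u = k ∧ Bad u} : ℝ) * 3 ^ μ ≤
        2 * (∑ t, (ℓ t : ℝ)) ^ 2 * Nat.card {u // K Y ℓ u = k ∧ True} := by
    intro k
    by_cases hk : ∃ u, K Y ℓ u = k
    · obtain ⟨N, hN⟩ : ∃ N, ∀ g : ∀ t, RW n (k t), (∀ t i, ((g t).1 i).1 ∈ Y) →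
          Nat.card {u // Fib Y ℓ k g u} = N := by
        by_cases hg : ∃ g : ∀ t, RW n (k t), ∀ t i, ((g t).1 i).1 ∈ Y
        · obtain ⟨g0, hg0⟩ := hg
          exact ⟨_, fun g hg => fib_card Y ℓ h1 k g g0 hg hg0⟩
        · exact ⟨0, fun g hg' => absurd ⟨g, hg'⟩ hg⟩
      have c1 := count Y ℓ k (fun g => ¬ NoRep g μ) Bad (fun u g hf => by
        rw [hBad]
        exact not_congr (noRep_congr _ _ (fun t => (ofFn_frw _).trans (hf t)) μ)) N hN
      have c2 := count Y ℓ k (fun _ => True) (fun _ => True) (fun _ _ _ => Iff.rfl) N hN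
      have c3 := h2 n m c hc Y hY k μ hμ
      have c4 : Nat.card {g : ∀ t, RW n (k t) // (∀ t i, ((g t).1 i).1 ∈ Y) ∧ True} =
          Nat.card {g : ∀ t, RW n (k t) // ∀ t i, ((g t).1 i).1 ∈ Y} := by
        simp only [and_true]
      have c5 : ∑ t, (k t : ℝ) ≤ ∑ t, (ℓ t : ℝ) := by
        obtain ⟨u, hu⟩ := hk
        apply Finset.sum_le_sum
        intro t _
        have := K_le Y ℓ u t
        rw [hu] at this
        exact_mod_cast this
      have c6 : (0 : ℝ) ≤ ∑ t, (k t : ℝ) := Finset.sum_nonneg fun t _ => Nat.cast_nonneg _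
      have c7 : (∑ t, (k t : ℝ)) ^ 2 ≤ (∑ t, (ℓ t : ℝ)) ^ 2 := pow_le_pow_left₀ c6 c5 2
      rw [c1, c2, c4]
      push_cast
      set G1 : ℝ := (Nat.card {g : ∀ t, RW n (k t) // (∀ t i, ((g t).1 i).1 ∈ Y) ∧
        ¬ NoRep g μ} : ℝ)
      set G2 : ℝ := (Nat.card {g : ∀ t, RW n (k t) // ∀ t i, ((g t).1 i).1 ∈ Y} : ℝ) with hG2
      have hG0 : 0 ≤ G2 := Nat.cast_nonneg _
      have hN0 : (0 : ℝ) ≤ N := Nat.cast_nonneg _
      calc G1 * N * 3 ^ μ = (G1 * 3 ^ μ) * N := by ring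
        _ ≤ (2 * (∑ t, (k t : ℝ)) ^ 2 * G2) * N := mul_le_mul_of_nonneg_right c3 hN0
        _ ≤ (2 * (∑ t, (ℓ t : ℝ)) ^ 2 * G2) * N := by
            apply mul_le_mul_of_nonneg_right _ hN0
            apply mul_le_mul_of_nonneg_right _ hG0
            linarith
        _ = 2 * (∑ t, (ℓ t : ℝ)) ^ 2 * (G2 * N) := by ring
    · have : IsEmpty {u // K Y ℓ u = k ∧ Bad u} := ⟨fun u => hk ⟨u.1, u.2.1⟩⟩
      rw [Nat.card_of_isEmpty, Nat.cast_zero, zero_mul]
      positivity
  have tot : ∀ Q : (∀ t, Fin (ℓ t) → Fin n × Bool) → Prop,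
      (Nat.card {u // Q u} : ℝ) =
        ∑ k ∈ Finset.univ.image (K Y ℓ), (Nat.card {u // K Y ℓ u = k ∧ Q u} : ℝ) := by
    intro Q
    have e1 : Nat.card {u // Q u} =
        ∑ k ∈ Finset.univ.image (K Y ℓ), Nat.card {u // K Y ℓ u = k ∧ Q u} := by
      rw [Nat.card_eq_fintype_card, Fintype.card_subtype,
        Finset.card_eq_sum_card_fiberwise (f := K Y ℓ) (t := Finset.univ.image (K Y ℓ))
          (fun x _ => Finset.mem_coe.2 (Finset.mem_image_of_mem _ (Finset.mem_univ x)))]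
      apply Finset.sum_congr rfl
      intro k _
      rw [Nat.card_eq_fintype_card, Fintype.card_subtype, Finset.filter_filter]
      congr 1
      ext u
      simp only [Finset.mem_filter, Finset.mem_univ, true_and]
      exact and_comm
    rw [e1]
    push_cast
    rfl
  have hU : (Nat.card (∀ t, Fin (ℓ t) → Fin n × Bool) : ℝ) =
      Nat.card {u : ∀ t, Fin (ℓ t) → Fin n × Bool // True} := by
    rw [Nat.card_congr (Equiv.subtypeUnivEquiv fun _ => trivial).symm]
  rw [hU, tot Bad, tot fun _ => True, Finset.sum_mul, Finset.mul_sum]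
  exact Finset.sum_le_sum fun k _ => per k

end Pool.Agent.N499.WX
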